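import Mathlib

/-!
# Lemma C of the [AF2] project (MP_ea8a26)

Four nonnegative sequences `a b c d` with the local relations
`c (m+1) d m ≥ c m d (m+1)`, `c (m+1) d (m-1) ≤ c m d m`,
`d m a (m+1) ≤ c m b (m+1)`, `d (m-1) a (m+1) ≤ c m b m`
satisfy `d (s+1) κ s ≤ d s κ (s+1)`, `κ s = ∑ (c (s-i) b i - d (s-i) a i)`.
-/

namespace Pool.Agent.Helper55.AF2

open Finset

/-- `∑_{a..b} f = 0` if `f` is antisymmetric under `m ↦ a + b - m`. -/
lemma sum_antisymm (f : ℤ → ℝ) (a b : ℤ) (h : ∀ m, f (a + b - m) = - f m) :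
    ∑ m ∈ Icc a b, f m = 0 := by
  have h1 : ∑ m ∈ Icc a b, f m = ∑ m ∈ Icc a b, f (a + b - m) := by
    refine Finset.sum_nbij' (fun m => a + b - m) (fun m => a + b - m) ?_ ?_ ?_ ?_ ?_
    · intro m hm; simp only [mem_Icc] at *; omega
    · intro m hm; simp only [mem_Icc] at *; omega
    · intro m _; ring
    · intro m _; ring
    · intro m _; congr 1; ring
  have h2 : ∑ m ∈ Icc a b, f (a + b - m) = - ∑ m ∈ Icc a b, f m := by
    rw [← Finset.sum_neg_distrib]; exact Finset.sum_congr rfl fun m _ => h m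
  linarith

lemma sum_Icc_split (f : ℤ → ℝ) {a b c : ℤ} (h1 : a ≤ b + 1) (h2 : b ≤ c) :
    ∑ m ∈ Icc a c, f m = ∑ m ∈ Icc a b, f m + ∑ m ∈ Icc (b + 1) c, f m := by
  rw [← Finset.sum_union]
  · congr 1
    ext m; simp only [mem_Icc, mem_union]; omega
  · rw [Finset.disjoint_left]; intro m hm; simp only [mem_Icc] at *; omega

lemma sum_Icc_mono_of_nonneg (f : ℤ → ℝ) {a b c : ℤ} (h2 : b ≤ c)
    (h : ∀ m, a ≤ m → m ≤ c → 0 ≤ f m) :
    ∑ m ∈ Icc a b, f m ≤ ∑ m ∈ Icc a c, f m := by
  refine Finset.sum_le_sum_of_subset_of_nonneg (Finset.Icc_subset_Icc le_rfl h2) ?_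
  intro m hm _
  rw [mem_Icc] at hm
  exact h m hm.1 hm.2

/-- the hypotheses on `c, d` up to index `n` (extended by zero to negative indices) -/
structure Good (C D : ℤ → ℝ) (n : ℤ) : Prop where
  c0 : ∀ i < 0, C i = 0
  d0 : ∀ i < 0, D i = 0
  cn : ∀ i, 0 ≤ C i
  dn : ∀ i, 0 ≤ D i
  dp : ∀ i, 0 ≤ i → i ≤ n → 0 < D i
  t1 : ∀ i j, i ≤ j → j ≤ n → C i * D j ≤ C j * D i
  t2 : ∀ i j, i ≤ j → j + 1 ≤ n → C (j + 1) * D i ≤ C (i + 1) * D j
  lc : ∀ i j, i ≤ j → j ≤ n → D i * D (j + 1) ≤ D (i + 1) * D j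
  mx : ∀ i j, i ≤ j → j ≤ n → C i * D (j + 1) ≤ C (i + 1) * D j

/-- `f n m = c_(n-m) d_m - c_m d_(n-m)` -/
noncomputable def f (C D : ℤ → ℝ) (n m : ℤ) : ℝ := D m * C (n - m) - C m * D (n - m)

/-- `h n m = c_(n-m) d_m - c_(m+1) d_(n-m-1)` -/
noncomputable def h (C D : ℤ → ℝ) (n m : ℤ) : ℝ := D m * C (n - m) - C (m + 1) * D (n - m - 1)

/-- interval functional -/
noncomputable def G (C D : ℤ → ℝ) (n u v : ℤ) : ℝ := C u * D (n - u) + ∑ m ∈ Icc u v, f C D n m

variable {C D : ℤ → ℝ}

lemma f_anti (n m : ℤ) : f C D n (n - m) = - f C D n m := by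
  unfold f; rw [show n - (n - m) = m by ring]; ring

lemma h_anti (n m : ℤ) : h C D n (n - 1 - m) = - h C D n m := by
  unfold h
  rw [show n - (n - 1 - m) = m + 1 by ring, show n - 1 - m + 1 = n - m by ring,
    show m + 1 - 1 = m by ring, show n - 1 - m = n - m - 1 by ring]
  ring

lemma sum_f_first (n u v : ℤ) (hn : u + v ≤ n) (huv : u ≤ v) :
    ∑ m ∈ Icc u v, f C D n m = ∑ m ∈ Icc u (min v (n - 1 - v)), f C D n m := by
  rcases le_or_gt v (n - 1 - v) with h0 | h0
  · rw [min_eq_left h0]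
  · rw [min_eq_right h0.le, sum_Icc_split (b := n - 1 - v) _ (by omega) (by omega)]
    rw [show n - 1 - v + 1 = n - v by ring]
    rw [sum_antisymm _ (n - v) v (fun m => by
      rw [show n - v + v - m = n - m by ring]; exact f_anti n m)]
    ring

lemma G_first (n u v : ℤ) (hn : u + v ≤ n) (huv : u ≤ v) :
    G C D n u v = C u * D (n - u) + ∑ m ∈ Icc u (min v (n - 1 - v)), f C D n m := by
  unfold G; rw [sum_f_first n u v hn huv]

lemma G_h (n u v : ℤ) (huv : u ≤ v) :
    G C D n u v = D v * C (n - v) + ∑ m ∈ Icc u (v - 1), h C D n m := by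
  induction v, huv using Int.leInduction with
  | base =>
    unfold G
    rw [Finset.Icc_self, Finset.sum_singleton, Finset.Icc_eq_empty (by omega)]
    unfold f; simp
  | succ v hv ih =>
    have e1 : G C D n u (v + 1) = G C D n u v + f C D n (v + 1) := by
      unfold G
      rw [sum_Icc_split (b := v) _ (by omega) (by omega), Finset.Icc_self, Finset.sum_singleton]
      ring
    have e2 : ∑ m ∈ Icc u (v + 1 - 1), h C D n m = ∑ m ∈ Icc u (v - 1), h C D n m + h C D n v := by
      rw [show v + 1 - 1 = v by ring, sum_Icc_split (b := v - 1) _ (by omega) (by omega),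
        show v - 1 + 1 = v by ring, Finset.Icc_self, Finset.sum_singleton]
    rw [e1, e2, ih]
    unfold f h
    rw [show n - (v + 1) = n - v - 1 by ring]
    ring

lemma G_second (n u v : ℤ) (hn : n ≤ u + v) (huv : u ≤ v) :
    G C D n u v = D v * C (n - v) + ∑ m ∈ Icc (max u (n - u)) (v - 1), h C D n m := by
  rw [G_h n u v huv]
  rcases le_or_gt u (n - u) with h0 | h0
  · rw [max_eq_right h0, sum_Icc_split (a := u) (b := n - u - 1) _ (by omega) (by omega),
      show n - u - 1 + 1 = n - u by ring]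
    rw [sum_antisymm _ u (n - u - 1) (fun m => by
      rw [show u + (n - u - 1) - m = n - 1 - m by ring]; exact h_anti n m)]
    ring
  · rw [max_eq_left h0.le]

namespace Good

variable {n : ℤ} (g : Good C D n)

include g

lemma f_nonneg (k m : ℤ) (hk : k ≤ n) (h2 : 2 * m ≤ k) (h0 : 0 ≤ m) : 0 ≤ f C D k m := by
  unfold f
  have := g.t1 m (k - m) (by omega) (by omega)
  nlinarith [this]

lemma h_nonneg (k m : ℤ) (h2 : k ≤ 2 * m + 1 + 1 - 1) (hm : m + 1 ≤ n) : 0 ≤ h C D k m := by
  unfold h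
  have := g.t2 (k - m - 1) m (by omega) hm
  rw [show k - m - 1 + 1 = k - m by ring] at this
  nlinarith [this]

/-- comparison of an `f` term -/
lemma f_step (m : ℤ) (hm0 : 0 ≤ m) (hm : 2 * m ≤ n - 1) :
    D (n + 1) * f C D (n - 1) m ≤ D n * f C D n m := by
  have hp : 0 < D (n - 1 - m) := g.dp _ (by omega) (by omega)
  have hf := g.f_nonneg (n - 1) m (by omega) hm hm0
  have e1 : D (n - m) * f C D (n - 1) m ≤ D (n - 1 - m) * f C D n m := by
    unfold f
    have h1 := g.t1 (n - 1 - m) (n - m) (by omega) (by omega)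
    have h2 := mul_le_mul_of_nonneg_left h1 (g.dn m)
    nlinarith [h2]
  have e2 := g.lc (n - 1 - m) n (by omega) le_rfl
  rw [show n - 1 - m + 1 = n - m by ring] at e2
  have e3 : D (n - 1 - m) * (D (n + 1) * f C D (n - 1) m) ≤ D (n - 1 - m) * (D n * f C D n m) := by
    calc D (n - 1 - m) * (D (n + 1) * f C D (n - 1) m)
        = (D (n - 1 - m) * D (n + 1)) * f C D (n - 1) m := by ring
      _ ≤ (D (n - m) * D n) * f C D (n - 1) m := mul_le_mul_of_nonneg_right e2 hf
      _ = D n * (D (n - m) * f C D (n - 1) m) := by ring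
      _ ≤ D n * (D (n - 1 - m) * f C D n m) := mul_le_mul_of_nonneg_left e1 (g.dn n)
      _ = D (n - 1 - m) * (D n * f C D n m) := by ring
  exact le_of_mul_le_mul_left e3 hp

/-- comparison of an `h` term -/
lemma h_step (m : ℤ) (hm0 : 0 ≤ m) (hm : n - 1 ≤ 2 * m + 1) (hm2 : m + 2 ≤ n) :
    D (n + 1) * h C D (n - 1) m ≤ D n * h C D n (m + 1) := by
  have hp : 0 < D m := g.dp _ (by omega) (by omega)
  have hf := g.h_nonneg (n - 1) m (by omega) (by omega)
  have e1 : D (m + 1) * h C D (n - 1) m ≤ D m * h C D n (m + 1) := by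
    unfold h
    have h1 := g.t2 m (m + 1) (by omega) (by omega)
    have h2 := mul_le_mul_of_nonneg_right h1 (g.dn (n - m - 2))
    rw [show n - 1 - m - 1 = n - m - 2 by ring, show n - (m + 1) - 1 = n - m - 2 by ring,
      show n - 1 - m = n - (m + 1) by ring]
    nlinarith [h2]
  have e2 := g.lc m n (by omega) le_rfl
  have e3 : D m * (D (n + 1) * h C D (n - 1) m) ≤ D m * (D n * h C D n (m + 1)) := by
    calc D m * (D (n + 1) * h C D (n - 1) m)
        = (D m * D (n + 1)) * h C D (n - 1) m := by ring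
      _ ≤ (D (m + 1) * D n) * h C D (n - 1) m := mul_le_mul_of_nonneg_right e2 hf
      _ = D n * (D (m + 1) * h C D (n - 1) m) := by ring
      _ ≤ D n * (D m * h C D n (m + 1)) := mul_le_mul_of_nonneg_left e1 (g.dn n)
      _ = D m * (D n * h C D n (m + 1)) := by ring
  exact le_of_mul_le_mul_left e3 hp

/-- sums of `f` terms in the first form -/
lemma sum_f_step (u v : ℤ) (hu : 0 ≤ u) (huv : u ≤ v) (hn : u + v ≤ n - 1) :
    D (n + 1) * ∑ m ∈ Icc u (min v (n - 1 - 1 - v)), f C D (n - 1) m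
      ≤ D n * ∑ m ∈ Icc u (min v (n - 1 - v)), f C D n m := by
  calc D (n + 1) * ∑ m ∈ Icc u (min v (n - 1 - 1 - v)), f C D (n - 1) m
      = ∑ m ∈ Icc u (min v (n - 1 - 1 - v)), D (n + 1) * f C D (n - 1) m := by
        rw [Finset.mul_sum]
    _ ≤ ∑ m ∈ Icc u (min v (n - 1 - 1 - v)), D n * f C D n m := by
        refine Finset.sum_le_sum fun m hm => ?_
        rw [mem_Icc] at hm
        exact g.f_step m (by omega) (by omega)
    _ ≤ ∑ m ∈ Icc u (min v (n - 1 - v)), D n * f C D n m := by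
        refine sum_Icc_mono_of_nonneg _ (by omega) ?_
        intro m h1 h2
        exact mul_nonneg (g.dn n) (g.f_nonneg n m le_rfl (by omega) (by omega))
    _ = D n * ∑ m ∈ Icc u (min v (n - 1 - v)), f C D n m := by rw [Finset.mul_sum]

theorem G_mono (u v : ℤ) (hu : 0 ≤ u) (huv : u ≤ v) (hv : v ≤ n) :
    D (n + 1) * G C D (n - 1) u v ≤ D n * G C D n u v := by
  rcases le_or_gt (u + v) (n - 1) with hn | hn
  · rw [G_first (n - 1) u v hn huv, G_first n u v (by omega) huv, mul_add, mul_add]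
    refine add_le_add ?_ (g.sum_f_step u v hu huv hn)
    have e := g.lc (n - 1 - u) n (by omega) le_rfl
    rw [show n - 1 - u + 1 = n - u by ring] at e
    have := mul_le_mul_of_nonneg_left e (g.cn u)
    nlinarith [this]
  · have hn' : n ≤ u + v := by omega
    rw [G_second (n - 1) u v (by omega) huv, G_second n u v hn' huv]
    -- shift the second sum
    have hshift : ∑ m ∈ Icc (max u (n - u)) (v - 1), h C D n m
        = ∑ m ∈ Icc (max u (n - u) - 1) (v - 1 - 1), h C D n (m + 1) := by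
      refine Finset.sum_nbij' (fun m => m - 1) (fun m => m + 1) ?_ ?_ ?_ ?_ ?_
      · intro m hm; simp only [mem_Icc] at *; omega
      · intro m hm; simp only [mem_Icc] at *; omega
      · intro m _; ring
      · intro m _; ring
      · intro m _; congr 1; ring
    rcases eq_or_lt_of_le (show max u (n - 1 - u) ≤ v by omega) with he | hlt
    · -- the first sum is empty
      rw [he, Finset.Icc_eq_empty (by omega), Finset.sum_empty, add_zero]
      have h1 : 0 ≤ ∑ m ∈ Icc (max u (n - u)) (v - 1), h C D n m := by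
        refine Finset.sum_nonneg fun m hm => ?_
        rw [mem_Icc] at hm
        exact g.h_nonneg n m (by omega) (by omega)
      have h2 := g.mx (n - 1 - v) n (by omega) le_rfl
      rw [show n - 1 - v + 1 = n - v by ring] at h2
      have h3 := mul_le_mul_of_nonneg_left h2 (g.dn v)
      have h4 := mul_nonneg (g.dn n) h1
      nlinarith [h3, h4]
    · -- split off the last term of the first sum
      have hv1 : 1 ≤ v := by omega
      rw [hshift, sum_Icc_split (a := max u (n - 1 - u)) (b := v - 1 - 1) (c := v - 1) _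
        (by omega) (by omega), show v - 1 - 1 + 1 = v - 1 by ring, Finset.Icc_self,
        Finset.sum_singleton]
      have hA : D (n + 1) * ∑ m ∈ Icc (max u (n - 1 - u)) (v - 1 - 1), h C D (n - 1) m
          ≤ D n * ∑ m ∈ Icc (max u (n - u) - 1) (v - 1 - 1), h C D n (m + 1) := by
        rw [Finset.mul_sum, Finset.mul_sum]
        calc ∑ m ∈ Icc (max u (n - 1 - u)) (v - 1 - 1), D (n + 1) * h C D (n - 1) m
            ≤ ∑ m ∈ Icc (max u (n - 1 - u)) (v - 1 - 1), D n * h C D n (m + 1) := by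
              refine Finset.sum_le_sum fun m hm => ?_
              rw [mem_Icc] at hm
              exact g.h_step m (by omega) (by omega) (by omega)
          _ ≤ ∑ m ∈ Icc (max u (n - u) - 1) (v - 1 - 1), D n * h C D n (m + 1) := by
              refine Finset.sum_le_sum_of_subset_of_nonneg
                (Finset.Icc_subset_Icc (by omega) le_rfl) ?_
              intro m hm _
              rw [mem_Icc] at hm
              exact mul_nonneg (g.dn n) (g.h_nonneg n (m + 1) (by omega) (by omega))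
      have hB : D (n + 1) * (D v * C (n - 1 - v) + h C D (n - 1) (v - 1))
          ≤ D n * (D v * C (n - v)) := by
        have e1 : D v * C (n - 1 - v) + h C D (n - 1) (v - 1) ≤ D (v - 1) * C (n - v) := by
          unfold h
          rw [show n - 1 - (v - 1) = n - v by ring, show v - 1 + 1 = v by ring,
            show n - v - 1 = n - 1 - v by ring]
          have := g.t1 (n - 1 - v) v (by omega) hv
          nlinarith [this]
        have e2 := g.lc (v - 1) n (by omega) le_rfl
        rw [show v - 1 + 1 = v by ring] at e2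
        calc D (n + 1) * (D v * C (n - 1 - v) + h C D (n - 1) (v - 1))
            ≤ D (n + 1) * (D (v - 1) * C (n - v)) := mul_le_mul_of_nonneg_left e1 (g.dn _)
          _ = (D (v - 1) * D (n + 1)) * C (n - v) := by ring
          _ ≤ (D v * D n) * C (n - v) := mul_le_mul_of_nonneg_right e2 (g.cn _)
          _ = D n * (D v * C (n - v)) := by ring
      nlinarith [hA, hB]

theorem G0_mono (v : ℤ) (h0 : 0 ≤ v) (hv : v ≤ n) :
    D (n + 1) * ∑ m ∈ Icc 0 v, f C D (n - 1) m ≤ D n * ∑ m ∈ Icc 0 v, f C D n m := by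
  rcases eq_or_lt_of_le hv with he | hlt
  · -- both sums vanish
    subst he
    have e1 : ∑ m ∈ Icc 0 v, f C D v m = 0 :=
      sum_antisymm _ 0 v (fun m => by rw [show 0 + v - m = v - m by ring]; exact f_anti v m)
    have e2 : ∑ m ∈ Icc 0 v, f C D (v - 1) m = 0 := by
      rw [sum_Icc_split (b := v - 1) _ (by omega) (by omega),
        sum_antisymm _ 0 (v - 1) (fun m => by
          rw [show 0 + (v - 1) - m = v - 1 - m by ring]; exact f_anti (v - 1) m),
        show v - 1 + 1 = v by ring, Finset.Icc_self, Finset.sum_singleton]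
      unfold f
      rw [g.c0 (v - 1 - v) (by omega), g.d0 (v - 1 - v) (by omega)]
      ring
    rw [e1, e2]; simp
  · rw [sum_f_first (n - 1) 0 v (by omega) h0, sum_f_first n 0 v (by omega) h0]
    exact g.sum_f_step 0 v le_rfl h0 (by omega)

end Good


/-- layer cake for functionals of the form `∑ A η - ∑ B min(η_m, η_(m-1))` -/
lemma layer (A B η : ℕ → ℝ) (N : ℕ) (hη : ∀ m ≤ N, 0 ≤ η m)
    (hJ0 : ∀ v ≤ N, 0 ≤ ∑ m ∈ range (v + 1), (A m - B m))
    (hJ : ∀ u v, 1 ≤ u → u ≤ v → v ≤ N → 0 ≤ B u + ∑ m ∈ Ico u (v + 1), (A m - B m)) :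
    0 ≤ (A 0 - B 0) * η 0
      + ∑ m ∈ range N, (A (m + 1) * η (m + 1) - B (m + 1) * min (η (m + 1)) (η m)) := by
  set j : ℕ → ℝ := fun v => Nat.rec (A 0 - B 0) (fun v t => A (v + 1) + min 0 (t - B (v + 1))) v
    with hj
  have j0 : j 0 = A 0 - B 0 := rfl
  have js : ∀ v, j (v + 1) = A (v + 1) + min 0 (j v - B (v + 1)) := fun v => rfl
  have c1 : ∀ v, j v = ∑ m ∈ range (v + 1), (A m - B m) ∨
      ∃ u, 1 ≤ u ∧ u ≤ v ∧ j v = B u + ∑ m ∈ Ico u (v + 1), (A m - B m) := by
    intro v
    induction v with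
    | zero => left; simp [j0]
    | succ v ih =>
      rw [js]
      rcases le_total 0 (j v - B (v + 1)) with h0 | h0
      · right
        refine ⟨v + 1, by omega, le_rfl, ?_⟩
        rw [min_eq_left h0]; simp
      · rw [min_eq_right h0]
        rcases ih with ih | ⟨u, hu1, hu2, ih⟩
        · left; rw [Finset.sum_range_succ, ← ih]; ring
        · right
          refine ⟨u, hu1, by omega, ?_⟩
          rw [Finset.sum_Ico_succ_top (by omega), ih]; ring
  have c2 : ∀ v ≤ N, 0 ≤ j v := by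
    intro v hv
    rcases c1 v with h0 | ⟨u, hu1, hu2, h0⟩
    · rw [h0]; exact hJ0 v hv
    · rw [h0]; exact hJ u v hu1 hu2 hv
  have c3 : ∀ v ≤ N, j v * η v ≤ (A 0 - B 0) * η 0
      + ∑ m ∈ range v, (A (m + 1) * η (m + 1) - B (m + 1) * min (η (m + 1)) (η m)) := by
    intro v
    induction v with
    | zero => intro _; simp [j0]
    | succ v ih =>
      intro hv
      have ih' := ih (by omega)
      rw [Finset.sum_range_succ, js]
      have e1 : j v * min (η (v + 1)) (η v) ≤ j v * η v :=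
        mul_le_mul_of_nonneg_left (min_le_right _ _) (c2 v (by omega))
      have hm0 : 0 ≤ min (η (v + 1)) (η v) := le_min (hη _ hv) (hη _ (by omega))
      have hm1 : min (η (v + 1)) (η v) ≤ η (v + 1) := min_le_left _ _
      have e2 : min 0 (j v - B (v + 1)) * η (v + 1) ≤ (j v - B (v + 1)) * min (η (v + 1)) (η v) := by
        rcases le_total 0 (j v - B (v + 1)) with h0 | h0
        · rw [min_eq_left h0, zero_mul]; exact mul_nonneg h0 hm0
        · rw [min_eq_right h0]; nlinarith [mul_le_mul_of_nonpos_left hm1 h0]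
      nlinarith [e1, e2, ih']
  exact le_trans (mul_nonneg (c2 N le_rfl) (hη N le_rfl)) (c3 N le_rfl)

/-- extension by zero to the integers -/
noncomputable def ext (c : ℕ → ℝ) (i : ℤ) : ℝ := if i < 0 then 0 else c i.toNat

lemma ext_neg (c : ℕ → ℝ) {i : ℤ} (hi : i < 0) : ext c i = 0 := if_pos hi

lemma ext_nat (c : ℕ → ℝ) (m : ℕ) : ext c (m : ℤ) = c m := by
  unfold ext; rw [if_neg (by omega)]; simp

lemma ext_nonneg (c : ℕ → ℝ) (hc : ∀ m, 0 ≤ c m) (i : ℤ) : 0 ≤ ext c i := by
  unfold ext; split_ifs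
  · exact le_rfl
  · exact hc _

/-- all pairs from adjacent pairs -/
lemma pairs (x y : ℕ → ℝ) (n : ℕ) (hx : ∀ m, 0 ≤ x m) (hy0 : ∀ m, 0 ≤ y m)
    (hy : ∀ m < n, 0 < y m)
    (hxy : ∀ m, m + 1 ≤ n → x m * y (m + 1) ≤ x (m + 1) * y m) :
    ∀ i j, i ≤ j → j ≤ n → x i * y j ≤ x j * y i := by
  intro i j hij
  induction j, hij using Nat.le_induction with
  | base => intro _; exact le_rfl
  | succ j hij ih =>
    intro hj
    have h1 := ih (by omega)
    have h2 := hxy j hj
    have hp := hy j (by omega)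
    have : y j * (x i * y (j + 1)) ≤ y j * (x (j + 1) * y i) := by
      calc y j * (x i * y (j + 1)) = (x i * y j) * y (j + 1) := by ring
        _ ≤ (x j * y i) * y (j + 1) := mul_le_mul_of_nonneg_right h1 (hy0 _)
        _ = (x j * y (j + 1)) * y i := by ring
        _ ≤ (x (j + 1) * y j) * y i := mul_le_mul_of_nonneg_right h2 (hy0 _)
        _ = y j * (x (j + 1) * y i) := by ring
    exact le_of_mul_le_mul_left this hp

theorem good_of (c d : ℕ → ℝ) (n : ℕ) (hc : ∀ m, 0 ≤ c m) (hd : ∀ m, 0 ≤ d m)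
    (hc' : ∀ m ≤ n, 0 < c m) (hd' : ∀ m ≤ n, 0 < d m)
    (h1 : ∀ m, c m * d (m + 1) ≤ c (m + 1) * d m)
    (h2 : ∀ m, c (m + 2) * d m ≤ c (m + 1) * d (m + 1)) :
    Good (ext c) (ext d) (n : ℤ) := by
  have hlc : ∀ i j, i ≤ j → j ≤ n → d i * d (j + 1) ≤ d j * d (i + 1) := by
    refine pairs d (fun m => d (m + 1)) n hd (fun m => hd _) (fun m hm => hd' _ (by omega)) ?_
    intro m hm
    have e1 := h1 (m + 1)
    have e2 := h2 m
    have hp := hc' (m + 1) hm
    have : c (m + 1) * (d m * d (m + 1 + 1)) ≤ c (m + 1) * (d (m + 1) * d (m + 1)) := by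
      calc c (m + 1) * (d m * d (m + 1 + 1)) = (c (m + 1) * d (m + 1 + 1)) * d m := by ring
        _ ≤ (c (m + 1 + 1) * d (m + 1)) * d m := mul_le_mul_of_nonneg_right e1 (hd _)
        _ = (c (m + 2) * d m) * d (m + 1) := by ring
        _ ≤ (c (m + 1) * d (m + 1)) * d (m + 1) := mul_le_mul_of_nonneg_right e2 (hd _)
        _ = c (m + 1) * (d (m + 1) * d (m + 1)) := by ring
    exact le_of_mul_le_mul_left this hp
  have hdn := ext_nonneg d hd
  have hcn := ext_nonneg c hc
  refine ⟨fun i hi => ext_neg c hi, fun i hi => ext_neg d hi, hcn, hdn, ?_, ?_, ?_, ?_, ?_⟩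
  · intro i h0 hi
    lift i to ℕ using h0
    rw [ext_nat]; exact hd' i (by omega)
  · intro i j hij hj
    rcases lt_or_ge i 0 with hi | hi
    · rw [ext_neg c hi, zero_mul]; exact mul_nonneg (hcn _) (hdn _)
    · lift i to ℕ using hi
      lift j to ℕ using (by omega)
      simp only [ext_nat]
      exact pairs c d n hc hd (fun m hm => hd' m hm.le) (fun m _ => h1 m) i j (by omega) (by omega)
  · intro i j hij hj
    rcases lt_or_ge i 0 with hi | hi
    · rw [ext_neg d hi, mul_zero]; exact mul_nonneg (hcn _) (hdn _)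
    · lift i to ℕ using hi
      lift j to ℕ using (by omega)
      have := pairs d (fun m => c (m + 1)) (n - 1) hd (fun m => hc _)
        (fun m hm => hc' _ (by omega)) (fun m _ => by have := h2 m; nlinarith [this])
        i j (by omega) (by omega)
      have e1 : ext c ((j : ℤ) + 1) = c (j + 1) := by exact_mod_cast ext_nat c (j + 1)
      have e2 : ext c ((i : ℤ) + 1) = c (i + 1) := by exact_mod_cast ext_nat c (i + 1)
      rw [e1, e2, ext_nat, ext_nat]
      nlinarith [this]
  · intro i j hij hj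
    rcases lt_or_ge i 0 with hi | hi
    · rw [ext_neg d hi, zero_mul]; exact mul_nonneg (hdn _) (hdn _)
    · lift i to ℕ using hi
      lift j to ℕ using (by omega)
      have := hlc i j (by omega) (by omega)
      have e1 : ext d ((j : ℤ) + 1) = d (j + 1) := by exact_mod_cast ext_nat d (j + 1)
      have e2 : ext d ((i : ℤ) + 1) = d (i + 1) := by exact_mod_cast ext_nat d (i + 1)
      rw [e1, e2, ext_nat, ext_nat]
      nlinarith [this]
  · intro i j hij hj
    rcases lt_or_ge i 0 with hi | hi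
    · rw [ext_neg c hi, zero_mul]; exact mul_nonneg (hcn _) (hdn _)
    · lift i to ℕ using hi
      lift j to ℕ using (by omega)
      have e1 : ext d ((j : ℤ) + 1) = d (j + 1) := by exact_mod_cast ext_nat d (j + 1)
      have e2 : ext c ((i : ℤ) + 1) = c (i + 1) := by exact_mod_cast ext_nat c (i + 1)
      rw [e1, e2, ext_nat, ext_nat]
      have a1 := hlc i j (by omega) (by omega)
      have a2 := h1 i
      have hp := hd' i (by omega)
      have : d i * (c i * d (j + 1)) ≤ d i * (c (i + 1) * d j) := by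
        calc d i * (c i * d (j + 1)) = c i * (d i * d (j + 1)) := by ring
          _ ≤ c i * (d j * d (i + 1)) := mul_le_mul_of_nonneg_left a1 (hc _)
          _ = (c i * d (i + 1)) * d j := by ring
          _ ≤ (c (i + 1) * d i) * d j := mul_le_mul_of_nonneg_right a2 (hd _)
          _ = d i * (c (i + 1) * d j) := by ring
      exact le_of_mul_le_mul_left this hp

lemma sum_cast (F : ℤ → ℝ) (u v : ℕ) :
    ∑ m ∈ Ico u (v + 1), F (m : ℤ) = ∑ m ∈ Icc (u : ℤ) v, F m := by
  refine Finset.sum_nbij' (fun m => (m : ℤ)) (fun m => m.toNat) ?_ ?_ ?_ ?_ ?_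
  · intro m hm; simp only [mem_Icc, mem_Ico] at *; omega
  · intro m hm; simp only [mem_Icc, mem_Ico] at *; omega
  · intro m _; simp
  · intro m hm; simp only [mem_Icc] at hm; omega
  · intro m _; rfl

/-- the coefficients of `c b - d a` -/
noncomputable def kap (a b c d : ℕ → ℝ) (s : ℕ) : ℝ :=
  ∑ i ∈ range (s + 1), (c (s - i) * b i - d (s - i) * a i)

theorem lemmaC (a b c d : ℕ → ℝ) (s : ℕ)
    (hb : ∀ m, 0 ≤ b m) (hc : ∀ m, 0 ≤ c m) (hd : ∀ m, 0 ≤ d m)
    (hc' : ∀ m ≤ s, 0 < c m) (hd' : ∀ m ≤ s, 0 < d m)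
    (h1 : ∀ m, c m * d (m + 1) ≤ c (m + 1) * d m)
    (h2 : ∀ m, c (m + 2) * d m ≤ c (m + 1) * d (m + 1))
    (h3 : ∀ m, d m * a (m + 1) ≤ c m * b (m + 1))
    (h4 : ∀ m, d m * a (m + 2) ≤ c (m + 1) * b (m + 1)) :
    d (s + 1) * kap a b c d s ≤ d s * kap a b c d (s + 1) := by
  have g := good_of c d s hc hd hc' hd' h1 h2
  set C := ext c with hC
  set D := ext d with hD
  have hDn : ∀ i, 0 ≤ D i := ext_nonneg d hd
  have hCn : ∀ i, 0 ≤ C i := ext_nonneg c hc
  have cs1 : ext c ((s : ℤ) + 1) = c (s + 1) := by exact_mod_cast ext_nat c (s + 1)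
  have ds1 : ext d ((s : ℤ) + 1) = d (s + 1) := by exact_mod_cast ext_nat d (s + 1)
  set p : ℤ → ℝ := fun y => d s * C y - d (s + 1) * C (y - 1) with hp
  set q : ℤ → ℝ := fun y => d s * D y - d (s + 1) * D (y - 1) with hq
  -- rewrite of the difference
  have e1 : kap a b c d (s + 1)
      = ∑ i ∈ range (s + 2), (C ((s : ℤ) + 1 - i) * b i - D ((s : ℤ) + 1 - i) * a i) := by
    unfold kap
    refine Finset.sum_congr rfl fun i hi => ?_
    rw [mem_range] at hi
    have : ((s : ℤ) + 1 - i) = ((s + 1 - i : ℕ) : ℤ) := by omega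
    rw [this, hC, hD, ext_nat, ext_nat]
  have e2 : kap a b c d s
      = ∑ i ∈ range (s + 2), (C ((s : ℤ) + 1 - i - 1) * b i - D ((s : ℤ) + 1 - i - 1) * a i) := by
    rw [Finset.sum_range_succ]
    have z1 : C ((s : ℤ) + 1 - ((s + 1 : ℕ) : ℤ) - 1) = 0 := ext_neg c (by omega)
    have z2 : D ((s : ℤ) + 1 - ((s + 1 : ℕ) : ℤ) - 1) = 0 := ext_neg d (by omega)
    rw [z1, z2]
    unfold kap
    simp only [zero_mul, sub_zero, add_zero]
    refine Finset.sum_congr rfl fun i hi => ?_
    rw [mem_range] at hi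
    have : ((s : ℤ) + 1 - i - 1) = ((s - i : ℕ) : ℤ) := by omega
    rw [this, hC, hD, ext_nat, ext_nat]
  have e3 : d s * kap a b c d (s + 1) - d (s + 1) * kap a b c d s
      = ∑ i ∈ range (s + 2), (p ((s : ℤ) + 1 - i) * b i - q ((s : ℤ) + 1 - i) * a i) := by
    rw [e1, e2, Finset.mul_sum, Finset.mul_sum, ← Finset.sum_sub_distrib]
    refine Finset.sum_congr rfl fun i _ => ?_
    simp only [hp, hq]; ring
  -- the layer-cake data
  set η : ℕ → ℝ := fun m => b (m + 1) / d m with hη
  set A : ℕ → ℝ := fun m => d m * p ((s : ℤ) - m) with hA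
  set B : ℕ → ℝ := fun m => c m * q ((s : ℤ) - m) with hB
  have hqn : ∀ m : ℕ, m ≤ s → 0 ≤ q ((s : ℤ) - m) := by
    intro m hm
    have := g.lc ((s : ℤ) - m - 1) s (by omega) le_rfl
    rw [show (s : ℤ) - m - 1 + 1 = s - m by ring] at this
    simp only [hq]
    rw [← hD] at ds1
    rw [ds1] at this
    have hs : D (s : ℤ) = d s := by rw [hD, ext_nat]
    rw [hs] at this
    nlinarith [this]
  have hAB : ∀ m : ℕ, A m - B m = d s * f C D s m - d (s + 1) * f C D (s - 1) m := by
    intro m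
    simp only [hA, hB, hp, hq]
    unfold f
    have x1 : D (m : ℤ) = d m := by rw [hD, ext_nat]
    have x2 : C (m : ℤ) = c m := by rw [hC, ext_nat]
    rw [x1, x2, show (s : ℤ) - m - 1 = s - 1 - m by ring]; ring
  have hsD : D (s : ℤ) = d s := by rw [hD, ext_nat]
  have hsD1 : D ((s : ℤ) + 1) = d (s + 1) := by rw [hD]; exact ds1
  have hlayer := layer A B η s (fun m hm => div_nonneg (hb _) (hd _))
    (by
      intro v hv
      have : ∑ m ∈ range (v + 1), (A m - B m)
          = d s * ∑ m ∈ Icc (0 : ℤ) v, f C D s m - d (s + 1) * ∑ m ∈ Icc (0 : ℤ) v, f C D (s - 1) m := by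
        rw [Finset.sum_congr rfl (fun m _ => hAB m), Finset.sum_sub_distrib, ← Finset.mul_sum,
          ← Finset.mul_sum, Finset.range_eq_Ico]
        have c1 := sum_cast (fun m => f C D s m) 0 v
        have c2 := sum_cast (fun m => f C D (s - 1) m) 0 v
        simp only [Nat.cast_zero] at c1 c2
        rw [c1, c2]
      rw [this]
      have := g.G0_mono v (by omega) (by omega)
      rw [hsD, hsD1] at this
      linarith)
    (by
      intro u v hu huv hv
      have : B u + ∑ m ∈ Ico u (v + 1), (A m - B m)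
          = d s * G C D s u v - d (s + 1) * G C D (s - 1) u v := by
        rw [Finset.sum_congr rfl (fun m _ => hAB m), Finset.sum_sub_distrib, ← Finset.mul_sum,
          ← Finset.mul_sum]
        have c1 := sum_cast (fun m => f C D s m) u v
        have c2 := sum_cast (fun m => f C D (s - 1) m) u v
        rw [c1, c2]
        unfold G
        simp only [hB, hq]
        have x2 : C (u : ℤ) = c u := by rw [hC, ext_nat]
        rw [x2, show (s : ℤ) - u - 1 = s - 1 - u by ring]; ring
      rw [this]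
      have := g.G_mono u v (by omega) (by omega) (by omega)
      rw [hsD, hsD1] at this
      linarith)
  -- comparison
  have hfin : (A 0 - B 0) * η 0
      + ∑ m ∈ range s, (A (m + 1) * η (m + 1) - B (m + 1) * min (η (m + 1)) (η m))
      ≤ ∑ i ∈ range (s + 2), (p ((s : ℤ) + 1 - i) * b i - q ((s : ℤ) + 1 - i) * a i) := by
    rw [Finset.sum_range_succ' (n := s + 1), Finset.sum_range_succ' (n := s)]
    have hAe : ∀ m : ℕ, m ≤ s → A m * η m = p ((s : ℤ) - m) * b (m + 1) := by
      intro m hm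
      simp only [hA, hη]
      have := hd' m hm
      field_simp
    have t0 : (0 : ℝ) ≤ p ((s : ℤ) + 1 - (0 : ℕ)) * b 0 - q ((s : ℤ) + 1 - (0 : ℕ)) * a 0 := by
      simp only [hp, hq, Nat.cast_zero, sub_zero, add_sub_cancel_right]
      rw [hsD, hsD1]
      have x2 : C (s : ℤ) = c s := by rw [hC, ext_nat]
      rw [x2, show C ((s : ℤ) + 1) = c (s + 1) from cs1]
      have := mul_le_mul_of_nonneg_right (h1 s) (hb 0)
      nlinarith [this]
    have t1 : (A 0 - B 0) * η 0 ≤ p ((s : ℤ) + 1 - ((0 + 1 : ℕ) : ℤ)) * b (0 + 1)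
        - q ((s : ℤ) + 1 - ((0 + 1 : ℕ) : ℤ)) * a (0 + 1) := by
      have y1 := hAe 0 (by omega)
      have y2 : q ((s : ℤ) - (0 : ℕ)) * a (0 + 1) ≤ B 0 * η 0 := by
        have z : a (0 + 1) ≤ c 0 * η 0 := by
          simp only [hη]
          rw [mul_div_assoc', le_div_iff₀ (hd' 0 (by omega))]
          have := h3 0; nlinarith [this]
        have := mul_le_mul_of_nonneg_left z (hqn 0 (by omega))
        simp only [hB]; nlinarith [this]
      have z1 : (s : ℤ) + 1 - ((0 + 1 : ℕ) : ℤ) = (s : ℤ) - (0 : ℕ) := by push_cast; ring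
      rw [z1]; nlinarith [y1, y2]
    have t2 : ∑ m ∈ range s, (A (m + 1) * η (m + 1) - B (m + 1) * min (η (m + 1)) (η m))
        ≤ ∑ m ∈ range s, (p ((s : ℤ) + 1 - ((m + 1 + 1 : ℕ) : ℤ)) * b (m + 1 + 1)
          - q ((s : ℤ) + 1 - ((m + 1 + 1 : ℕ) : ℤ)) * a (m + 1 + 1)) := by
      refine Finset.sum_le_sum fun m hm => ?_
      rw [mem_range] at hm
      have y1 := hAe (m + 1) (by omega)
      have y2 : q ((s : ℤ) - ((m + 1 : ℕ) : ℤ)) * a (m + 1 + 1)
          ≤ B (m + 1) * min (η (m + 1)) (η m) := by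
        have z : a (m + 1 + 1) ≤ c (m + 1) * min (η (m + 1)) (η m) := by
          rw [mul_min_of_nonneg _ _ (hc _)]
          refine le_min ?_ ?_
          · simp only [hη]
            rw [mul_div_assoc', le_div_iff₀ (hd' (m + 1) (by omega))]
            have := h3 (m + 1); nlinarith [this]
          · simp only [hη]
            rw [mul_div_assoc', le_div_iff₀ (hd' m (by omega))]
            have := h4 m; nlinarith [this]
        have := mul_le_mul_of_nonneg_left z (hqn (m + 1) (by omega))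
        simp only [hB]; nlinarith [this]
      have z1 : (s : ℤ) + 1 - ((m + 1 + 1 : ℕ) : ℤ) = (s : ℤ) - ((m + 1 : ℕ) : ℤ) := by
        push_cast; ring
      rw [z1]; nlinarith [y1, y2]
    linarith [t0, t1, t2]
  linarith [hlayer, hfin, e3]

end Pool.Agent.Helper55.AF2
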